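import Pool.Agent.H52.ZS.LQS
import Pool.Agent.H68.ZS.TA

/-!
Board zs, row LQS.
-/

set_option autoImplicit false

namespace Pool.Agent.H52.ZS

open Pool.Agent.H27.ZF Pool.Agent.H68.ZS

theorem pf_LQS : T_LQS := by
  intro m _
  obtain ⟨C, c0, hC, hc0, hc1, hh⟩ := lqs m
  have hpos : 0 < max C (1 / c0) := lt_of_lt_of_le hC (le_max_left _ _)
  refine ⟨max C (1 / c0), ?_, ?_⟩
  · refine le_trans ?_ (le_max_right _ _)
    rw [le_div_iff₀ hc0]
    linarith
  · intro h q x hI hx
    have h1 : 1 / max C (1 / c0) ≤ c0 := by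
      rw [div_le_iff₀ hpos]
      have h2 := mul_le_mul_of_nonneg_left (le_max_right C (1 / c0)) hc0.le
      rw [mul_one_div_cancel hc0.ne'] at h2
      exact h2
    obtain ⟨h2, h3⟩ := hh h q x hI fun k hk1 hk2 => (hx k hk1 hk2).trans h1
    refine ⟨by linarith, h3.trans ?_⟩
    exact mul_le_mul_of_nonneg_right (le_max_left _ _) (Finset.sum_nonneg fun k _ => by positivity)

end Pool.Agent.H52.ZS
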