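import Pool.Agent.H69.ZF.LQB

/-!
Board zs, row LQS: the two-sided form of the row LQB.
-/

set_option autoImplicit false

namespace Pool.Agent.H52.ZS

open Pool.Agent.H27.ZF Pool.Agent.H69.ZF

/-- the polynomial against its linear term -/
theorem approx (m : ℕ) (h q : ℕ → ℂ) (x : ℂ) (hI : Inv m h q)
    (hx : ∀ k, 1 ≤ k → k ≤ m → ‖h k * x ^ k‖ ≤ 1) :
    ‖qv m q x - (1 - ∑ k ∈ Finset.Icc 1 m, h k * x ^ k)‖ ≤
      m * 2 ^ (m + 1) * m * ∑ k ∈ Finset.Icc 1 m, ‖h k * x ^ k‖ ^ 2 ∧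
    ‖∑ k ∈ Finset.Icc 1 m, h k * x ^ k‖ ^ 2 ≤ m * ∑ k ∈ Finset.Icc 1 m, ‖h k * x ^ k‖ ^ 2 := by
  obtain ⟨u, hu⟩ : ∃ u : ℕ → ℂ, ∀ k, u k = h k * x ^ k := ⟨_, fun _ => rfl⟩
  obtain ⟨v, hv⟩ : ∃ v : ℕ → ℂ, ∀ k, v k = q k * x ^ k := ⟨_, fun _ => rfl⟩
  obtain ⟨S1, hS1⟩ : ∃ S1 : ℝ, S1 = ∑ k ∈ Finset.Icc 1 m, ‖u k‖ := ⟨_, rfl⟩
  obtain ⟨S2, hS2⟩ : ∃ S2 : ℝ, S2 = ∑ k ∈ Finset.Icc 1 m, ‖u k‖ ^ 2 := ⟨_, rfl⟩
  have hS10 : 0 ≤ S1 := by
    rw [hS1]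
    exact Finset.sum_nonneg fun k _ => norm_nonneg _
  have hS20 : 0 ≤ S2 := by
    rw [hS2]
    exact Finset.sum_nonneg fun k _ => by positivity
  have hu1 : ∀ k, 1 ≤ k → k ≤ m → ‖u k‖ ≤ 1 := fun k h1 h2 => by
    rw [hu]
    exact hx k h1 h2
  have huS : ∀ k, 1 ≤ k → k ≤ m → ‖u k‖ ≤ S1 := fun k h1 h2 => by
    rw [hS1]
    exact Finset.single_le_sum (f := fun k => ‖u k‖) (fun i _ => norm_nonneg _)
      (Finset.mem_Icc.2 ⟨h1, h2⟩)
  have hS12 : S1 ^ 2 ≤ m * S2 := by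
    have h1 := sq_sum_le_card_mul_sum_sq (s := Finset.Icc 1 m) (f := fun k => ‖u k‖)
    rw [Nat.card_Icc, Nat.add_sub_cancel] at h1
    rw [hS1, hS2]
    exact h1
  have hS1m : S1 ≤ m := by
    rw [hS1]
    have h1 := Finset.sum_le_card_nsmul (Finset.Icc 1 m) (fun k => ‖u k‖) 1 (fun k hk => by
      obtain ⟨h2, h3⟩ := Finset.mem_Icc.1 hk
      exact hu1 k h2 h3)
    rw [Nat.card_Icc, Nat.add_sub_cancel, nsmul_eq_mul, mul_one] at h1
    exact h1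
  have hv0 : v 0 = 1 := by rw [hv, hI.q0, pow_zero, mul_one]
  have hu0 : u 0 = 1 := by rw [hu, hI.h0, pow_zero, mul_one]
  -- the recursion
  have hrec : ∀ n, v (n + 1) + u (n + 1) = -∑ j ∈ Finset.range n, v (j + 1) * u (n - j) := by
    intro n
    have h1 := hI.conv (n + 1) (by omega)
    have h2 : ∑ j ∈ Finset.range (n + 2), v j * u (n + 1 - j) = 0 := by
      have h3 : ∑ j ∈ Finset.range (n + 2), v j * u (n + 1 - j) =
          (∑ j ∈ Finset.range (n + 1 + 1), q j * h (n + 1 - j)) * x ^ (n + 1) := by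
        rw [Finset.sum_mul]
        refine Finset.sum_congr rfl fun j hj => ?_
        have hj' : j ≤ n + 1 := by
          have := Finset.mem_range.1 hj
          omega
        rw [hv, hu]
        have h4 : x ^ (n + 1) = x ^ j * x ^ (n + 1 - j) := by
          rw [← pow_add]
          congr 1
          omega
        rw [h4]
        ring
      rw [h3, h1, zero_mul]
    rw [Finset.sum_range_succ, Finset.sum_range_succ', Nat.sub_self, hu0, mul_one,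
      Nat.sub_zero, hv0, one_mul] at h2
    have h5 : ∑ j ∈ Finset.range n, v (j + 1) * u (n + 1 - (j + 1)) =
        ∑ j ∈ Finset.range n, v (j + 1) * u (n - j) := by
      refine Finset.sum_congr rfl fun j _ => ?_
      rw [Nat.add_sub_add_right]
    rw [h5] at h2
    linear_combination h2
  have hgeo : ∀ n : ℕ, ∑ j ∈ Finset.range n, (2 : ℝ) ^ (j + 1) = 2 ^ (n + 1) - 2 := by
    intro n
    induction n with
    | zero => norm_num
    | succ n ih =>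
      rw [Finset.sum_range_succ, ih]
      ring
  have hvb : ∀ n, n < m → ‖v (n + 1)‖ ≤ 2 ^ (n + 1) * S1 ∧
      ‖v (n + 1) + u (n + 1)‖ ≤ 2 ^ (n + 1) * S1 ^ 2 := by
    intro n
    induction n using Nat.strong_induction_on with
    | _ n ih =>
      intro hn
      have h1 : ‖v (n + 1) + u (n + 1)‖ ≤ ∑ j ∈ Finset.range n, ‖v (j + 1)‖ * ‖u (n - j)‖ := by
        rw [hrec, norm_neg]
        refine (norm_sum_le _ _).trans (le_of_eq ?_)
        exact Finset.sum_congr rfl fun j _ => norm_mul _ _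
      have h2 : ∑ j ∈ Finset.range n, ‖v (j + 1)‖ * ‖u (n - j)‖ ≤
          ∑ j ∈ Finset.range n, 2 ^ (j + 1) * S1 ^ 2 := by
        refine Finset.sum_le_sum fun j hj => ?_
        have hj' := Finset.mem_range.1 hj
        have h3 := (ih j hj' (by omega)).1
        have h4 := huS (n - j) (by omega) (by omega)
        calc ‖v (j + 1)‖ * ‖u (n - j)‖ ≤ (2 ^ (j + 1) * S1) * S1 :=
              mul_le_mul h3 h4 (norm_nonneg _) (by positivity)
          _ = 2 ^ (j + 1) * S1 ^ 2 := by ring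
      have h2' : ∑ j ∈ Finset.range n, ‖v (j + 1)‖ * ‖u (n - j)‖ ≤
          ∑ j ∈ Finset.range n, 2 ^ (j + 1) * S1 := by
        refine Finset.sum_le_sum fun j hj => ?_
        have hj' := Finset.mem_range.1 hj
        have h3 := (ih j hj' (by omega)).1
        have h4 := hu1 (n - j) (by omega) (by omega)
        calc ‖v (j + 1)‖ * ‖u (n - j)‖ ≤ (2 ^ (j + 1) * S1) * 1 :=
              mul_le_mul h3 h4 (norm_nonneg _) (by positivity)
          _ = 2 ^ (j + 1) * S1 := by ring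
      rw [← Finset.sum_mul, hgeo] at h2 h2'
      constructor
      · have h5 : ‖v (n + 1)‖ ≤ ‖v (n + 1) + u (n + 1)‖ + ‖u (n + 1)‖ := by
          have h6 : v (n + 1) = (v (n + 1) + u (n + 1)) - u (n + 1) := by ring
          calc ‖v (n + 1)‖ = ‖(v (n + 1) + u (n + 1)) - u (n + 1)‖ := by rw [← h6]
            _ ≤ _ := norm_sub_le _ _
        have h7 := huS (n + 1) (by omega) (by omega)
        have h8 : ((2 : ℝ) ^ (n + 1) - 2) * S1 = 2 ^ (n + 1) * S1 - 2 * S1 := by ring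
        rw [h8] at h2'
        linarith
      · have h8 : ((2 : ℝ) ^ (n + 1) - 2) * S1 ^ 2 = 2 ^ (n + 1) * S1 ^ 2 - 2 * S1 ^ 2 := by ring
        rw [h8] at h2
        have : 0 ≤ S1 ^ 2 := by positivity
        linarith
  -- the sum
  obtain ⟨w, hw⟩ : ∃ w : ℂ, w = ∑ k ∈ Finset.Icc 1 m, u k := ⟨_, rfl⟩
  have hwn : ‖w‖ ≤ S1 := by
    rw [hw, hS1]
    exact norm_sum_le _ _
  have hqv : qv m q x = (1 - w) + ∑ j ∈ Finset.range m, (v (j + 1) + u (j + 1)) := by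
    unfold qv
    have h1 : ∑ j ∈ Finset.range (m + 1), q j * x ^ j = ∑ j ∈ Finset.range (m + 1), v j :=
      Finset.sum_congr rfl fun j _ => (hv j).symm
    rw [h1, Finset.sum_range_succ', hv0, Finset.sum_add_distrib, hw, sum_Icc_one]
    ring
  have hr : ‖∑ j ∈ Finset.range m, (v (j + 1) + u (j + 1))‖ ≤ m * 2 ^ (m + 1) * m * S2 := by
    refine (norm_sum_le _ _).trans ?_
    have h1 : ∑ j ∈ Finset.range m, ‖v (j + 1) + u (j + 1)‖ ≤
        ∑ _j ∈ Finset.range m, 2 ^ (m + 1) * S1 ^ 2 := by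
      refine Finset.sum_le_sum fun j hj => ?_
      have hj' := Finset.mem_range.1 hj
      refine (hvb j hj').2.trans ?_
      refine mul_le_mul_of_nonneg_right ?_ (by positivity)
      exact pow_le_pow_right₀ (by norm_num) (by omega)
    refine h1.trans ?_
    rw [Finset.sum_const, Finset.card_range, nsmul_eq_mul]
    have h2 : (m : ℝ) * (2 ^ (m + 1) * S1 ^ 2) ≤ m * (2 ^ (m + 1) * (m * S2)) := by
      gcongr
    refine h2.trans (le_of_eq ?_)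
    ring
  have hw2 : ‖w‖ ^ 2 ≤ m * S2 := by
    have : ‖w‖ ^ 2 ≤ S1 ^ 2 := by
      have := norm_nonneg w
      gcongr
    linarith
  have e1 : (∑ k ∈ Finset.Icc 1 m, h k * x ^ k) = w := by
    rw [hw]
    exact Finset.sum_congr rfl fun k _ => (hu k).symm
  have e2 : ∑ k ∈ Finset.Icc 1 m, ‖h k * x ^ k‖ ^ 2 = S2 := by
    rw [hS2]
    exact Finset.sum_congr rfl fun k _ => by rw [hu]
  rw [e1, e2]
  refine ⟨?_, hw2⟩
  rw [hqv, add_sub_cancel_left]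
  exact hr

/-- the two-sided bound -/
theorem lqs (m : ℕ) : ∃ C c0 : ℝ, 0 < C ∧ 0 < c0 ∧ c0 ≤ 1 / 2 ∧ ∀ (h q : ℕ → ℂ) (x : ℂ), Inv m h q →
    (∀ k, 1 ≤ k → k ≤ m → ‖h k * x ^ k‖ ≤ c0) →
    1 / 2 ≤ ‖qv m q x‖ ∧
    |Real.log ‖qv m q x‖ + (∑ k ∈ Finset.Icc 1 m, h k * x ^ k).re| ≤
      C * ∑ k ∈ Finset.Icc 1 m, ‖h k * x ^ k‖ ^ 2 := by
  obtain ⟨K, hK⟩ : ∃ K : ℝ, K = (m : ℝ) * 2 ^ (m + 1) * m := ⟨_, rfl⟩
  have hK0 : 0 ≤ K := by rw [hK]; positivity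
  have hm0 : (0 : ℝ) ≤ m := Nat.cast_nonneg m
  obtain ⟨c0, hc0⟩ : ∃ c0 : ℝ, c0 = 1 / (4 * (m + 1) * (K + 1)) := ⟨_, rfl⟩
  have hc0p : 0 < c0 := by rw [hc0]; positivity
  have hc0e : c0 * (4 * (m + 1) * (K + 1)) = 1 := by
    rw [hc0]
    field_simp
  have hc01 : c0 ≤ 1 / 4 := by nlinarith [mul_nonneg hm0 hK0]
  refine ⟨2 * m + 3 * K + 1, c0, by positivity, hc0p, by linarith, ?_⟩
  intro h q x hI hx
  obtain ⟨h1, h2⟩ := approx m h q x hI fun k hk1 hk2 => (hx k hk1 hk2).trans (by linarith)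
  rw [← hK] at h1
  set w : ℂ := ∑ k ∈ Finset.Icc 1 m, h k * x ^ k with hw
  set S2 : ℝ := ∑ k ∈ Finset.Icc 1 m, ‖h k * x ^ k‖ ^ 2 with hS2
  have hS20 : 0 ≤ S2 := Finset.sum_nonneg fun k _ => by positivity
  have hS2m : S2 ≤ m * c0 ^ 2 := by
    have h3 := Finset.sum_le_card_nsmul (Finset.Icc 1 m) (fun k => ‖h k * x ^ k‖ ^ 2) (c0 ^ 2)
      (fun k hk => by
        obtain ⟨h4, h5⟩ := Finset.mem_Icc.1 hk
        exact pow_le_pow_left₀ (norm_nonneg _) (hx k h4 h5) 2)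
    rw [Nat.card_Icc, Nat.add_sub_cancel, nsmul_eq_mul] at h3
    exact h3
  have hwm : ‖w‖ ≤ m * c0 := by
    refine (norm_sum_le _ _).trans ?_
    have h3 := Finset.sum_le_card_nsmul (Finset.Icc 1 m) (fun k => ‖h k * x ^ k‖) c0
      (fun k hk => by
        obtain ⟨h4, h5⟩ := Finset.mem_Icc.1 hk
        exact hx k h4 h5)
    rw [Nat.card_Icc, Nat.add_sub_cancel, nsmul_eq_mul] at h3
    exact h3
  obtain ⟨z, hz⟩ : ∃ z : ℂ, z = qv m q x - 1 := ⟨_, rfl⟩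
  obtain ⟨R, hR⟩ : ∃ R : ℂ, R = qv m q x - (1 - w) := ⟨_, rfl⟩
  rw [← hR] at h1
  have hzR : z = -w + R := by rw [hz, hR]; ring
  have hmc : m * c0 ≤ 1 / 4 := by
    have : m * c0 * (4 * (m + 1) * (K + 1)) = m := by
      rw [mul_assoc, hc0e, mul_one]
    nlinarith [mul_nonneg hm0 hK0, mul_nonneg (mul_nonneg hm0 hc0p.le) hK0,
      mul_nonneg hm0 hc0p.le, mul_nonneg (mul_nonneg hm0 hc0p.le) hm0]
  have hKc : K * c0 ≤ 1 / 4 := by
    nlinarith [mul_nonneg hm0 hK0, mul_nonneg (mul_nonneg hm0 hc0p.le) hK0,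
      mul_nonneg hm0 hc0p.le, mul_nonneg hK0 hc0p.le]
  have hRn : ‖R‖ ≤ 1 / 4 := by
    have h3 : K * S2 ≤ K * (m * c0 ^ 2) := mul_le_mul_of_nonneg_left hS2m hK0
    have h4 : K * (m * c0 ^ 2) = (K * c0) * (m * c0) := by ring
    have h5 : (K * c0) * (m * c0) ≤ (1 / 4) * (1 / 4) :=
      mul_le_mul hKc hmc (by positivity) (by norm_num)
    linarith
  have hzn : ‖z‖ ≤ 1 / 2 := by
    rw [hzR]
    refine (norm_add_le _ _).trans ?_
    rw [norm_neg]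
    linarith
  have hq1 : qv m q x = 1 + z := by rw [hz]; ring
  have hq2 : 1 / 2 ≤ ‖qv m q x‖ := by
    rw [hq1]
    have h3 : ‖(1 : ℂ)‖ ≤ ‖1 + z‖ + ‖z‖ := by
      calc ‖(1 : ℂ)‖ = ‖(1 + z) - z‖ := by rw [add_sub_cancel_right]
        _ ≤ _ := norm_sub_le _ _
    rw [norm_one] at h3
    linarith
  refine ⟨hq2, ?_⟩
  have h3 := Complex.norm_log_one_add_sub_self_le (z := z) (by linarith)
  have h4 : ‖z‖ ^ 2 * (1 - ‖z‖)⁻¹ / 2 ≤ ‖z‖ ^ 2 := by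
    have h5 : (1 - ‖z‖)⁻¹ ≤ 2 := by
      rw [inv_le_comm₀ (by linarith) (by norm_num)]
      linarith
    have h6 : 0 ≤ ‖z‖ ^ 2 := by positivity
    nlinarith
  have h5 : Real.log ‖qv m q x‖ = (Complex.log (1 + z)).re := by
    rw [hq1, Complex.log_re]
  have h6 : ‖z‖ ^ 2 ≤ 2 * ‖w‖ ^ 2 + 2 * ‖R‖ ^ 2 := by
    have h7 : ‖z‖ ≤ ‖w‖ + ‖R‖ := by
      rw [hzR]
      refine (norm_add_le _ _).trans ?_
      rw [norm_neg]
    have h8 : ‖z‖ ^ 2 ≤ (‖w‖ + ‖R‖) ^ 2 := pow_le_pow_left₀ (norm_nonneg _) h7 2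
    nlinarith [sq_nonneg (‖w‖ - ‖R‖)]
  have h7 : ‖R‖ ^ 2 ≤ ‖R‖ := by
    nlinarith [norm_nonneg R]
  have h8 : Real.log ‖qv m q x‖ + w.re = (Complex.log (1 + z) - z).re + R.re := by
    rw [h5, Complex.sub_re, hzR, Complex.add_re, Complex.neg_re]
    ring
  rw [h8]
  have h9 := Complex.abs_re_le_norm (Complex.log (1 + z) - z)
  have h10 := Complex.abs_re_le_norm R
  have h11 : |(Complex.log (1 + z) - z).re + R.re| ≤ ‖Complex.log (1 + z) - z‖ + ‖R‖ :=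
    (abs_add_le _ _).trans (add_le_add h9 h10)
  have h12 : (2 * m + 3 * K + 1) * S2 = 2 * (m * S2) + 3 * (K * S2) + S2 := by ring
  rw [h12]
  nlinarith [norm_nonneg R]

end Pool.Agent.H52.ZS
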